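import Pool.Agent.Helper7.NimSum

open Pool.Agent.Helper7.NimSum

/-- There are 2-regular sequences `a`, `b` of natural numbers such that the array
`a i XOR b j` is not 2-regular. -/
theorem Pool.Agent.Results.MP_02a275_nt.ArrayXor.result :
    ∃ a b : ℕ → ℕ, IsTwoRegular (fun n => (a n : ℤ)) ∧ IsTwoRegular (fun n => (b n : ℤ)) ∧
      ¬ IsTwoRegularArray (fun i j => ((a i ^^^ b j : ℕ) : ℤ)) := by
  refine ⟨fun n => n ^ 2, fun n => n, ?_, ?_, not_reg_array⟩
  · have h := reg_of_poly 1 0 0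
    have heq : (fun n : ℕ => (1 : ℤ) * (n : ℤ) ^ 2 + 0 * n + 0) =
        fun n : ℕ => ((n ^ 2 : ℕ) : ℤ) := by
      funext n; push_cast; ring
    rwa [heq] at h
  · have h := reg_of_poly 0 1 0
    have heq : (fun n : ℕ => (0 : ℤ) * (n : ℤ) ^ 2 + 1 * n + 0) =
        fun n : ℕ => ((n : ℕ) : ℤ) := by
      funext n; ring
    rwa [heq] at h
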